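import Pool.Agent.V5helper20.CM.Final

set_option autoImplicit false

/-!
# Orbits of the iterated correlation map which do not converge

For all large `n` there is a nondegenerate correlation matrix of order `n` whose orbit under the
correlation map does not converge.

Main idea: consider unit vectors in `ℝ⁷`: the vector `e` with multiplicity `a`, the eight vectors
`p e ± √(1 - p²) e_j`, `j = 1, …, 4`, each with multiplicity `mA`, the two vectors
`r e ± √(1 - r²) f` with multiplicity `mB` (here `r < 0 < p`), and the two vectors `± g` with
multiplicity `m0`. The correlation map sends their Gram matrix to the Gram matrix of the same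
configuration with other parameters `p`, `r`, so a map of the plane is to be studied. For all weights
of a suitable one parameter family it has the fixed point `p = 1 / 3`, `r = - 1 / 12`, whose
linearisation has complex eigenvalues with product `1 - 5 / 4 * (b - 62 / 135)`, where `b` is the mean
of the first coordinates. So there is a Neimark-Sacker bifurcation at `b = 62 / 135`. An explicit
Lyapunov polynomial of degree four shows that the fixed point is attracting at `b = 62 / 135`; hence
for `b` slightly smaller there is an annulus around the fixed point, which is repelling now, that is
mapped into itself and contains no fixed point. This persists for all weights nearby, in particular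
for some weights which are realised by multiplicities with sum `n`, if `n` is large.
-/

open Filter Topology

namespace Pool.Agent.Results.MP_421f91_an.DivergentOrbits

open Pool.Agent.V5helper20.CM (corr Nondegenerate omega)

/-- `corr` is the correlation map; `Nondegenerate A` says that `A` is positive semidefinite with unit
diagonal and has no constant row; `omega A` is the set of accumulation points of the orbit of `A`. -/
theorem result : ∃ ε > 0, ∃ N : ℕ, ∀ n ≥ N, ∃ A : Matrix (Fin n) (Fin n) ℝ, Nondegenerate A ∧
    (∀ k : ℕ, ∃ i j, ε ≤ |(corr^[k + 1] A) i j - (corr^[k] A) i j|) ∧
    (¬ ∃ L, Tendsto (fun k : ℕ => corr^[k] A) atTop (𝓝 L)) ∧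
    (omega A).Nontrivial ∧ ∀ B ∈ omega A, Nondegenerate B ∧ corr B ≠ B :=
  Pool.Agent.V5helper20.CM.final

end Pool.Agent.Results.MP_421f91_an.DivergentOrbits
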